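import Pool.Agent.Helper65.KH.Goals

/-!
# Project KH, packet RG: the system `L` is regular in all orders
-/

set_option autoImplicit false

open MvPolynomial

namespace Pool.Agent.Helper15.KH.RG

open Pool.Agent.Helper65.KH

variable {ι : Type} [Fintype ι] [DecidableEq ι]

/-- `mon b ∏ L_i^(a_i)`. -/
noncomputable def FF (V : Finset (ι → ℕ)) (x : (ι → ℕ) × (ι → ℕ)) : MvPolynomial ι ℚ :=
  mon x.1 * ∏ i, Lp V i ^ x.2 i

/-- Linear combinations. -/
noncomputable def EE (V : Finset (ι → ℕ)) : ((ι → ℕ) × (ι → ℕ) →₀ ℚ) →ₗ[ℚ] MvPolynomial ι ℚ :=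
  Finsupp.linearCombination ℚ (FF V)

/-- Shift of the second exponent. -/
def sh (j : ι) (x : (ι → ℕ) × (ι → ℕ)) : (ι → ℕ) × (ι → ℕ) := (x.1, x.2 + Pi.single j 1)

theorem sh_inj (j : ι) : Function.Injective (sh j) := by
  rintro ⟨a, b⟩ ⟨a', b'⟩ h
  simp only [sh, Prod.mk.injEq, add_left_inj] at h
  exact Prod.ext h.1 h.2

theorem FF_sh (V : Finset (ι → ℕ)) (j : ι) (x : (ι → ℕ) × (ι → ℕ)) :
    FF V (sh j x) = Lp V j * FF V x := by
  have h : (∏ i, Lp V i ^ (sh j x).2 i) = (∏ i, Lp V i ^ x.2 i) * Lp V j := by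
    have h1 : ∀ i, Lp V i ^ (sh j x).2 i = Lp V i ^ x.2 i * Lp V i ^ (Pi.single j 1 : ι → ℕ) i := by
      intro i
      show Lp V i ^ (x.2 i + (Pi.single j 1 : ι → ℕ) i) = _
      rw [pow_add]
    simp only [h1]
    rw [Finset.prod_mul_distrib]
    congr 1
    rw [Finset.prod_eq_single j]
    · rw [Pi.single_eq_same, pow_one]
    · intro i _ hi
      rw [Pi.single_eq_of_ne hi, pow_zero]
    · intro h
      exact absurd (Finset.mem_univ j) h
  rw [FF, FF, h]
  show mon x.1 * _ = _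
  ring

theorem EE_sh (V : Finset (ι → ℕ)) (j : ι) (C : (ι → ℕ) × (ι → ℕ) →₀ ℚ) :
    EE V (Finsupp.mapDomain (sh j) C) = Lp V j * EE V C := by
  rw [EE, Finsupp.linearCombination_mapDomain, Finsupp.linearCombination_apply,
    Finsupp.linearCombination_apply, Finsupp.sum, Finsupp.sum, Finset.mul_sum]
  apply Finset.sum_congr rfl
  intro x _
  rw [Function.comp_apply, FF_sh, mul_smul_comm]

theorem mon_mul (p q : ι → ℕ) : (mon p : MvPolynomial ι ℚ) * mon q = mon (q + p) := by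
  rw [mon, mon, mon, ← Finset.prod_mul_distrib]
  apply Finset.prod_congr rfl
  intro i _
  rw [← pow_add, Pi.add_apply, add_comm]

/-! ## Degrees -/

theorem LL_pos {V : Finset (ι → ℕ)} (hV : Cn V) {w : ι → ℝ} (hw : w ∈ LL V) (j : ι) : 0 < w j := by
  obtain ⟨m, hm, hmV⟩ := hV.2 j
  have h1 := hw _ hmV
  have h2 : dt w (cv (Pi.single j m : ι → ℕ)) = w j * m := by
    rw [dt, Finset.sum_eq_single j]
    · rw [cv, Pi.single_eq_same]
    · intro i _ hi
      rw [cv, Pi.single_eq_of_ne hi]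
      simp
    · intro h
      exact absurd (Finset.mem_univ j) h
  rw [h2] at h1
  have hm' : (0 : ℝ) < m := by exact_mod_cast hm
  by_contra h
  push Not at h
  nlinarith

theorem LL_ne {V : Finset (ι → ℕ)} (hV : Cn V) : (LL V).Nonempty := by
  refine ⟨fun _ => 1, fun v hv => ?_⟩
  have h0 : v ≠ 0 := fun h => hV.1 (h ▸ hv)
  obtain ⟨i, hi⟩ : ∃ i, v i ≠ 0 := by
    by_contra h
    push Not at h
    exact h0 (funext h)
  have h1 : (v i : ℝ) ≤ ∑ j, (v j : ℝ) :=
    Finset.single_le_sum (f := fun j => (v j : ℝ)) (fun j _ => Nat.cast_nonneg _)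
      (Finset.mem_univ i)
  have h2 : (1 : ℝ) ≤ v i := by exact_mod_cast Nat.one_le_iff_ne_zero.mpr hi
  have h3 : dt (fun _ => 1) (cv v) = ∑ j, (v j : ℝ) := by
    simp [dt, cv]
  rw [h3]
  linarith

theorem LL_bdd {V : Finset (ι → ℕ)} (hV : Cn V) {x : ι → ℝ} (hx : ∀ i, 0 ≤ x i) :
    BddBelow ((fun w => dt w x) '' LL V) := by
  refine ⟨0, ?_⟩
  rintro _ ⟨w, hw, rfl⟩
  exact Finset.sum_nonneg (fun i _ => mul_nonneg (LL_pos hV hw i).le (hx i))

theorem dg_add {V : Finset (ι → ℕ)} (hV : Cn V) {θ : ι → ℝ} (hθ : ∀ i, 0 < θ i)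
    {v : ι → ℕ} (hv : v ∈ V) (p : ι → ℕ) : dg V θ p + 1 ≤ dg V θ (p + v) := by
  rw [dg, dg, rr, rr]
  apply le_csInf ((LL_ne hV).image _)
  rintro _ ⟨w, hw, rfl⟩
  have h1 : sInf ((fun w => dt w fun i => (p i : ℝ) + θ i) '' LL V) ≤
      dt w (fun i => (p i : ℝ) + θ i) := by
    apply csInf_le (LL_bdd hV (fun i => add_nonneg (Nat.cast_nonneg _) (hθ i).le))
    exact ⟨w, hw, rfl⟩
  have h2 : dt w (fun i => (((p + v) i : ℕ) : ℝ) + θ i) =
      dt w (fun i => (p i : ℝ) + θ i) + dt w (cv v) := by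
    rw [dt, dt, dt, ← Finset.sum_add_distrib]
    apply Finset.sum_congr rfl
    intro i _
    rw [Pi.add_apply, cv]
    push_cast
    ring
  have h3 := hw v hv
  show _ ≤ dt w (fun i => (((p + v) i : ℕ) : ℝ) + θ i)
  rw [h2]
  linarith

theorem fl_anti {V : Finset (ι → ℕ)} {θ : ι → ℝ} {s t : ℝ} (h : s ≤ t) : fl V θ t ≤ fl V θ s := by
  apply Ideal.span_mono
  rintro f ⟨p, hp, rfl⟩
  exact ⟨p, h.trans hp, rfl⟩

theorem fl_mon {V : Finset (ι → ℕ)} (hV : Cn V) {θ : ι → ℝ} (hθ : ∀ i, 0 < θ i)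
    {v : ι → ℕ} (hv : v ∈ V) {s : ℝ} {f : MvPolynomial ι ℚ} (hf : f ∈ fl V θ s) :
    mon v * f ∈ fl V θ (s + 1) := by
  have hle : fl V θ s ≤ Submodule.comap (LinearMap.mulLeft (MvPolynomial ι ℚ) (mon v))
      (fl V θ (s + 1)) := by
    apply Ideal.span_le.mpr
    rintro f ⟨p, hp, rfl⟩
    show mon v * mon p ∈ fl V θ (s + 1)
    rw [mon_mul]
    apply Ideal.subset_span
    refine ⟨p + v, ?_, rfl⟩
    have := dg_add hV hθ hv p
    linarith
  exact hle hf

theorem fl_L {V : Finset (ι → ℕ)} (hV : Cn V) {θ : ι → ℝ} (hθ : ∀ i, 0 < θ i)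
    (j : ι) {s : ℝ} {f : MvPolynomial ι ℚ} (hf : f ∈ fl V θ s) :
    Lp V j * f ∈ fl V θ (s + 1) := by
  rw [Lp, Finset.sum_mul]
  apply Ideal.sum_mem
  intro v hv
  rw [smul_mul_assoc, smul_eq_C_mul]
  exact Ideal.mul_mem_left _ _ (fl_mon hV hθ hv hf)

theorem fl_pow {V : Finset (ι → ℕ)} (hV : Cn V) {θ : ι → ℝ} (hθ : ∀ i, 0 < θ i)
    (j : ι) {s : ℝ} {f : MvPolynomial ι ℚ} (hf : f ∈ fl V θ s) (k : ℕ) :
    Lp V j ^ k * f ∈ fl V θ (s + k) := by
  induction k with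
  | zero => simpa using hf
  | succ k ih =>
    have h := fl_L hV hθ j ih
    have e1 : Lp V j ^ (k + 1) * f = Lp V j * (Lp V j ^ k * f) := by ring
    have e2 : s + ((k + 1 : ℕ) : ℝ) = s + k + 1 := by
      push_cast
      ring
    rw [e1, e2]
    exact h

theorem fl_FF {V : Finset (ι → ℕ)} (hV : Cn V) {θ : ι → ℝ} (hθ : ∀ i, 0 < θ i)
    (x : (ι → ℕ) × (ι → ℕ)) : FF V x ∈ fl V θ (dg V θ x.1 + ∑ i, (x.2 i : ℝ)) := by
  have key : ∀ s : Finset ι, (∏ i ∈ s, Lp V i ^ x.2 i) * mon x.1 ∈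
      fl V θ (dg V θ x.1 + ∑ i ∈ s, (x.2 i : ℝ)) := by
    intro s
    induction s using Finset.induction_on with
    | empty =>
      rw [Finset.prod_empty, one_mul, Finset.sum_empty, add_zero]
      exact Ideal.subset_span ⟨x.1, le_rfl, rfl⟩
    | insert j s hj ih =>
      rw [Finset.prod_insert hj, Finset.sum_insert hj, mul_assoc]
      have h := fl_pow hV hθ j ih (x.2 j)
      have e : dg V θ x.1 + ((x.2 j : ℝ) + ∑ i ∈ s, (x.2 i : ℝ)) =
          dg V θ x.1 + ∑ i ∈ s, (x.2 i : ℝ) + (x.2 j : ℝ) := by ring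
      rw [e]
      exact h
  rw [FF, mul_comm]
  exact key Finset.univ

/-- Expansion. -/
theorem expand {V : Finset (ι → ℕ)} {θ : ι → ℝ} {Box : Finset (ι → ℕ)} {t : ℝ}
    {f : MvPolynomial ι ℚ}
    (h : ∃ (T : Finset ((ι → ℕ) × (ι → ℕ))) (c : (ι → ℕ) × (ι → ℕ) → ℚ),
      (∀ x ∈ T, x.1 ∈ Box) ∧ f - ∑ x ∈ T, c x • (mon x.1 * ∏ i, Lp V i ^ x.2 i) ∈ fl V θ t) :
    ∃ C : (ι → ℕ) × (ι → ℕ) →₀ ℚ, (∀ x, C x ≠ 0 → x.1 ∈ Box) ∧ f - EE V C ∈ fl V θ t := by
  obtain ⟨T, c, h1, h2⟩ := h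
  refine ⟨∑ x ∈ T, Finsupp.single x (c x), ?_, ?_⟩
  · intro x hx
    by_contra hn
    apply hx
    rw [Finsupp.finsetSum_apply]
    apply Finset.sum_eq_zero
    intro y hy
    rw [Finsupp.single_apply, if_neg]
    rintro rfl
    exact hn (h1 _ hy)
  · have : EE V (∑ x ∈ T, Finsupp.single x (c x)) =
        ∑ x ∈ T, c x • (mon x.1 * ∏ i, Lp V i ^ x.2 i) := by
      rw [map_sum]
      apply Finset.sum_congr rfl
      intro x _
      rw [EE, Finsupp.linearCombination_single, FF]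
    rw [this]
    exact h2

/-- PACKET RG -/
theorem t (hTH : S_TH) (hBJ : S_BJ) (hBS : S_BS) (hBA : S_BA) (hFN : S_FN) : S_RG := by
  intro ι _ _ V hV hGP T i hiT M'
  obtain ⟨θ, hθ⟩ := hTH ι V
  have hθ0 : ∀ i, 0 < θ i := fun i => (hθ.1 i).1
  obtain ⟨Box, G, hG1, _, hG3, hG4, hG5⟩ := hBJ ι V θ hV hGP hθ
  obtain ⟨_, ⟨c, hc, hc2⟩, hF3, _⟩ := hFN ι V θ hV hθ0
  set t : ℝ := (M' : ℝ) + Fintype.card ι + 1 with ht
  obtain ⟨M, hM⟩ := exists_nat_ge (t / c)
  have hMt : t ≤ c * M := by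
    rw [div_le_iff₀ hc] at hM
    linarith
  refine ⟨M, fun f hf => ?_⟩
  set Q : Ideal (MvPolynomial ι ℚ) := Ideal.span (Lp V '' (T : Set ι)) with hQ
  -- comparison of the filtrations
  have hmm1 : mm ι M ≤ fl V θ t := by
    apply Ideal.span_mono
    rintro g ⟨p, hp, rfl⟩
    refine ⟨p, ?_, rfl⟩
    have h1 := hc2 p
    have h2 : (M : ℝ) ≤ ∑ i, (p i : ℝ) := by exact_mod_cast hp
    have h3 : c * (M : ℝ) ≤ c * ∑ i, (p i : ℝ) := mul_le_mul_of_nonneg_left h2 hc.le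
    linarith
  have hmm2 : fl V θ (t - 1) ≤ mm ι M' := by
    apply Ideal.span_mono
    rintro g ⟨p, hp, rfl⟩
    refine ⟨p, ?_, rfl⟩
    have h1 := hF3 p
    have h2 : ∑ i, ((p i : ℝ) + θ i) ≤ ∑ i, (p i : ℝ) + Fintype.card ι := by
      rw [Finset.sum_add_distrib]
      have h3 : ∑ i, θ i ≤ ∑ _i : ι, (1 : ℝ) :=
        Finset.sum_le_sum (fun i _ => (hθ.1 i).2.le)
      have h4 : ∑ _i : ι, (1 : ℝ) = Fintype.card ι := by simp
      linarith
    have h5 : (M' : ℝ) ≤ ∑ i, (p i : ℝ) := by linarith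
    exact_mod_cast h5
  -- decomposition
  obtain ⟨u, hu, r, hr, hur⟩ := Submodule.mem_sup.mp hf
  have hu' : ∃ g : ι → MvPolynomial ι ℚ, ∑ j ∈ T, g j • Lp V j = u := by
    rw [hQ] at hu
    exact (Submodule.mem_span_image_finset_iff_exists_fun' _).mp hu
  obtain ⟨g, hg⟩ := hu'
  obtain ⟨C, hC1, hC2⟩ := expand (hBS ι V θ Box hV hGP hθ hG5 (t - 1) f)
  have hgj : ∀ j, ∃ D : (ι → ℕ) × (ι → ℕ) →₀ ℚ, (∀ x, D x ≠ 0 → x.1 ∈ Box) ∧
      g j - EE V D ∈ fl V θ (t - 1) := fun j => expand (hBS ι V θ Box hV hGP hθ hG5 (t - 1) (g j))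
  choose D hD1 hD2 using hgj
  -- the combination
  set A : (ι → ℕ) × (ι → ℕ) →₀ ℚ := Finsupp.mapDomain (sh i) C -
    ∑ j ∈ T, Finsupp.mapDomain (sh j) (D j) with hA
  have hmap : ∀ (j : ι) (D : (ι → ℕ) × (ι → ℕ) →₀ ℚ), (∀ x, D x ≠ 0 → x.1 ∈ Box) →
      ∀ x, Finsupp.mapDomain (sh j) D x ≠ 0 → x.1 ∈ Box := by
    intro j D hD x hx
    have h1 : x ∈ (Finsupp.mapDomain (sh j) D).support := Finsupp.mem_support_iff.mpr hx
    have h2 := Finsupp.mapDomain_support h1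
    obtain ⟨y, hy, rfl⟩ := Finset.mem_image.mp h2
    exact hD y (Finsupp.mem_support_iff.mp hy)
  have hAbox : ∀ x ∈ A.support, x.1 ∈ Box := by
    intro x hx
    rw [Finsupp.mem_support_iff] at hx
    by_contra hn
    apply hx
    rw [hA, Finsupp.sub_apply, Finsupp.finsetSum_apply]
    have h1 : Finsupp.mapDomain (sh i) C x = 0 := by
      by_contra h
      exact hn (hmap i C hC1 x h)
    have h2 : ∑ j ∈ T, Finsupp.mapDomain (sh j) (D j) x = 0 := by
      apply Finset.sum_eq_zero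
      intro j _
      by_contra h
      exact hn (hmap j (D j) (hD1 j) x h)
    rw [h1, h2, sub_zero]
  have hAmem : EE V A ∈ fl V θ t := by
    have e1 : EE V A = Lp V i * EE V C - ∑ j ∈ T, Lp V j * EE V (D j) := by
      rw [hA, map_sub, map_sum, EE_sh]
      congr 1
      exact Finset.sum_congr rfl (fun j _ => EE_sh V j (D j))
    have e2 : EE V A = (∑ j ∈ T, Lp V j * (g j - EE V (D j))) - Lp V i * (f - EE V C) + r := by
      have e3 : Lp V i * f = (∑ j ∈ T, Lp V j * g j) + r := by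
        rw [← hur, ← hg]
        congr 1
        apply Finset.sum_congr rfl
        intro j _
        rw [smul_eq_mul, mul_comm]
      have e4 : (∑ j ∈ T, Lp V j * (g j - EE V (D j))) =
          (∑ j ∈ T, Lp V j * g j) - ∑ j ∈ T, Lp V j * EE V (D j) := by
        rw [← Finset.sum_sub_distrib]
        apply Finset.sum_congr rfl
        intro j _
        ring
      rw [e1, e4, mul_sub, e3]
      ring
    rw [e2]
    have ht1 : t - 1 + 1 = t := by ring
    apply Ideal.add_mem _ _ (hmm1 hr)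
    apply Ideal.sub_mem
    · apply Ideal.sum_mem
      intro j _
      have := fl_L hV hθ0 j (hD2 j)
      rwa [ht1] at this
    · have := fl_L hV hθ0 i hC2
      rwa [ht1] at this
  have hBA' := hBA ι V θ Box G hV hGP hθ hG1 hG3 hG4 hG5 t A.support A hAbox (by
    have : EE V A = ∑ x ∈ A.support, A x • (mon x.1 * ∏ i, Lp V i ^ x.2 i) := by
      rw [EE, Finsupp.linearCombination_apply, Finsupp.sum]
      rfl
    rw [← this]
    exact hAmem)
  -- the coefficients of `C`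
  have hCz : ∀ x : (ι → ℕ) × (ι → ℕ), (∀ j ∈ T, x.2 j = 0) →
      dg V θ x.1 + ∑ k, (x.2 k : ℝ) < t - 1 → C x = 0 := by
    intro x hx hdeg
    have h1 : A (sh i x) = C x := by
      rw [hA, Finsupp.sub_apply, Finsupp.finsetSum_apply, Finsupp.mapDomain_apply (sh_inj i)]
      have h2 : ∑ j ∈ T, Finsupp.mapDomain (sh j) (D j) (sh i x) = 0 := by
        apply Finset.sum_eq_zero
        intro j hj
        by_contra h
        have h3 : sh i x ∈ (Finsupp.mapDomain (sh j) (D j)).support :=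
          Finsupp.mem_support_iff.mpr h
        have h4 := Finsupp.mapDomain_support h3
        obtain ⟨y, _, hy⟩ := Finset.mem_image.mp h4
        have h5 := congrArg (fun z : (ι → ℕ) × (ι → ℕ) => z.2 j) hy
        simp only [sh, Pi.add_apply, Pi.single_eq_same] at h5
        have hij : j ≠ i := fun h => hiT (h ▸ hj)
        rw [Pi.single_eq_of_ne hij, hx j hj] at h5
        omega
      rw [h2, sub_zero]
    by_contra hne
    have h6 : sh i x ∈ A.support := by
      rw [Finsupp.mem_support_iff, h1]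
      exact hne
    have h7 := hBA' (sh i x) h6 (by
      have e : ∑ k, (((sh i x).2 k : ℕ) : ℝ) = ∑ k, (x.2 k : ℝ) + 1 := by
        have : ∀ k, (((sh i x).2 k : ℕ) : ℝ) = (x.2 k : ℝ) + (((Pi.single i 1 : ι → ℕ) k : ℕ) : ℝ) := by
          intro k
          show (((x.2 k + (Pi.single i 1 : ι → ℕ) k : ℕ)) : ℝ) = _
          push_cast
          rfl
        simp only [this]
        rw [Finset.sum_add_distrib]
        congr 1
        rw [Finset.sum_eq_single i]
        · rw [Pi.single_eq_same]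
          simp
        · intro k _ hk
          rw [Pi.single_eq_of_ne hk]
          simp
        · intro h
          exact absurd (Finset.mem_univ i) h
      rw [e]
      show dg V θ x.1 + (∑ k, (x.2 k : ℝ) + 1) < t
      linarith)
    rw [h1] at h7
    exact hne h7
  -- conclusion
  have hCmem : EE V C ∈ Q ⊔ fl V θ (t - 1) := by
    rw [EE, Finsupp.linearCombination_apply, Finsupp.sum]
    apply Ideal.sum_mem
    intro x _
    rw [smul_eq_C_mul]
    by_cases h1 : ∃ j ∈ T, x.2 j ≠ 0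
    · obtain ⟨j, hj, hxj⟩ := h1
      apply Ideal.mul_mem_left
      apply Ideal.mem_sup_left
      have e : x = sh j (x.1, x.2 - Pi.single j 1) := by
        rw [sh]
        apply Prod.ext
        · rfl
        · funext k
          show x.2 k = (x.2 k - (Pi.single j 1 : ι → ℕ) k) + (Pi.single j 1 : ι → ℕ) k
          by_cases hk : k = j
          · subst hk
            rw [Pi.single_eq_same]
            omega
          · rw [Pi.single_eq_of_ne hk]
            omega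
      rw [e, FF_sh]
      apply Ideal.mul_mem_right
      exact Ideal.subset_span ⟨j, hj, rfl⟩
    · push Not at h1
      by_cases h2 : dg V θ x.1 + ∑ k, (x.2 k : ℝ) < t - 1
      · rw [hCz x h1 h2, C_0, zero_mul]
        exact Ideal.zero_mem _
      · apply Ideal.mul_mem_left
        apply Ideal.mem_sup_right
        exact fl_anti (not_lt.mp h2) (fl_FF hV hθ0 x)
  have hfin : f = EE V C + (f - EE V C) := by ring
  rw [hfin]
  have hle : Q ⊔ fl V θ (t - 1) ≤ Q ⊔ mm ι M' := sup_le_sup_left hmm2 Q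
  exact Ideal.add_mem _ (hle hCmem) (hle (Ideal.mem_sup_right hC2))

end Pool.Agent.Helper15.KH.RG
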